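import Pool.Agent.Helper50_PN.Stmts

/-!
# Squad PN, module CLM: the vector fields `A` keep the order at the strata
-/

set_option autoImplicit false

universe u

open MvPolynomial

namespace Pool.Agent.PN.H11

section dual

variable {R : Type*} [CommRing R]

/-- the dual number with the two components `x`, `y` -/
def dn (x y : R) : DualNumber R := TrivSqZeroExt.inl x + TrivSqZeroExt.inr y

@[simp] theorem fst_dn (x y : R) : (dn x y).fst = x := by simp [dn]

@[simp] theorem snd_dn (x y : R) : (dn x y).snd = y := by simp [dn]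

theorem dn_ext {z : DualNumber R} {x y : R} (h1 : z.fst = x) (h2 : z.snd = y) : z = dn x y :=
  TrivSqZeroExt.ext (by rw [h1, fst_dn]) (by rw [h2, snd_dn])

theorem fst_mul' (x y : DualNumber R) : (x * y).fst = x.fst * y.fst := TrivSqZeroExt.fst_mul x y

theorem snd_mul' (x y : DualNumber R) : (x * y).snd = x.fst * y.snd + y.fst * x.snd := by
  rw [TrivSqZeroExt.snd_mul, smul_eq_mul, op_smul_eq_mul, mul_comm x.snd]

theorem taylor {σ : Type*} [DecidableEq σ] (v : σ → R) (s₀ : σ) (W : R) (P : MvPolynomial σ ℤ) :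
    (aeval (fun s => dn (v s) (if s = s₀ then W else 0)) P : DualNumber R) =
      dn (aeval v P) (W * aeval v (pderiv s₀ P)) := by
  induction P using MvPolynomial.induction_on with
  | C z =>
    apply dn_ext
    · simp
    · simp
  | add p q hp hq =>
    rw [map_add, hp, hq]
    apply dn_ext
    · simp
    · simp only [TrivSqZeroExt.snd_add, snd_dn, map_add, mul_add]
  | mul_X p n hp =>
    rw [map_mul, hp, aeval_X]
    apply dn_ext
    · rw [fst_mul', fst_dn, fst_dn, map_mul, aeval_X]
    · rw [snd_mul', fst_dn, snd_dn, fst_dn, snd_dn, Derivation.leibniz, pderiv_X, map_add,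
        smul_eq_mul, smul_eq_mul, map_mul, map_mul, aeval_X]
      by_cases h : n = s₀
      · subst h
        rw [if_pos rfl, Pi.single_eq_same, map_one]
        ring
      · rw [if_neg h, Pi.single_eq_of_ne h, map_zero]
        ring

/-- the inclusion -/
def ii (R : Type*) [CommRing R] : R →+* DualNumber R := TrivSqZeroExt.inlHom R R

theorem ii_eq (r : R) : ii R r = dn r 0 := by
  show TrivSqZeroExt.inl r = _
  apply dn_ext <;> simp

/-- the infinitesimal -/
def ee (R : Type*) [CommRing R] : DualNumber R := dn 0 1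

theorem ee_mul : ee R * ee R = 0 := by
  apply TrivSqZeroExt.ext
  · rw [fst_mul']
    simp [ee]
  · rw [snd_mul']
    simp [ee]

theorem dn_eq (r w : R) : dn r w = ii R r + ee R * ii R w := by
  symm
  apply dn_ext
  · rw [TrivSqZeroExt.fst_add, fst_mul', ii_eq, ii_eq, fst_dn, ee, fst_dn, fst_dn]
    ring
  · rw [TrivSqZeroExt.snd_add, snd_mul', ii_eq, ii_eq, snd_dn, ee, fst_dn, fst_dn, snd_dn, snd_dn]
    ring

theorem dvd_snd {u A B : R} {M : ℕ} {z : DualNumber R} (h : ii R u ∣ z) (h' : z ^ M ∣ dn A B) :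
    u ^ M ∣ B := by
  obtain ⟨c, hc⟩ := (pow_dvd_pow_of_dvd h M).trans h'
  have h1 := congrArg TrivSqZeroExt.snd hc
  rw [← map_pow, ii_eq, snd_mul', snd_dn, fst_dn, snd_dn, mul_zero, add_zero] at h1
  exact ⟨c.snd, h1⟩

/-- the inverse of `u` times the power of its value -/
theorem exists_v (k : ℕ) (u : PowerSeries R) : ∃ v : PowerSeries R,
    (PowerSeries.X : PowerSeries R) ^ (k + 1) ∣
      v * u - PowerSeries.C (PowerSeries.constantCoeff u ^ (k + 1)) := by
  refine ⟨∑ i ∈ Finset.range (k + 1), PowerSeries.C (PowerSeries.constantCoeff u) ^ i *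
    (PowerSeries.C (PowerSeries.constantCoeff u) - u) ^ (k + 1 - 1 - i), ?_⟩
  have h1 := (Commute.all (PowerSeries.C (PowerSeries.constantCoeff u))
    (PowerSeries.C (PowerSeries.constantCoeff u) - u)).geom_sum₂_mul (k + 1)
  rw [sub_sub_cancel] at h1
  rw [h1, map_pow, sub_right_comm, sub_self, zero_sub, dvd_neg]
  apply pow_dvd_pow_of_dvd
  rw [PowerSeries.X_dvd_iff]
  simp

end dual

section main

variable {n N k : ℕ} {R : Type*} [CommRing R]

/-- the perturbed parameters -/
def pa (a : Fin n → Fin N → R) (l : Fin n) (j : Fin N) (W : R) : Fin n → Fin N → DualNumber R :=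
  fun p q => dn (a p q) (if (p, q) = (l, j) then W else 0)

theorem evP_pa (a : Fin n → Fin N → R) (x : Fin n → PowerSeries R) (l : Fin n) (j : Fin N) (W : R)
    (P : Pol n N k) : evP (pa a l j W) (fun i => PowerSeries.map (ii R) (x i)) P =
      dn (evP a x P) (W * evP a x (pderiv (Sum.inl (l, j)) P)) := by
  unfold evP
  rw [← taylor]
  congr 2
  funext s
  rcases s with ⟨p, q⟩ | ⟨r, q⟩
  · show dn (a p q) _ = dn (a p q) _
    congr 1
    simp only [Sum.inl.injEq]
  · show PowerSeries.coeff (q : ℕ) (PowerSeries.map (ii R) (x r)) =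
      dn (PowerSeries.coeff (q : ℕ) (x r)) _
    rw [if_neg (by simp), PowerSeries.coeff_map, ii_eq]

theorem A_apply (l : Fin n) (j : Fin N) (P : Pol n N k) :
    A l j P = (X (Sum.inr (l, 0)) - X (Sum.inl (l, j))) ^ (k + 1) *
      pderiv (Sum.inl (l, j)) P := by
  have h : (A l j : Derivation ℤ (Pol n N k) (Pol n N k)) =
      ((X (Sum.inr (l, 0)) - X (Sum.inl (l, j)) : Pol n N k) ^ (k + 1)) •
        pderiv (Sum.inl (l, j)) := by
    apply MvPolynomial.derivation_ext
    intro v
    rw [A, mkDerivation_X, Derivation.smul_apply, pderiv_X, smul_eq_mul]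
    rcases v with p | p
    · show (if p = (l, j) then _ else _) = _
      by_cases h : p = (l, j)
      · rw [if_pos h, h, Pi.single_eq_same, mul_one]
      · rw [if_neg h, Pi.single_eq_of_ne (by simpa using h), mul_zero]
    · show (0 : Pol n N k) = _
      rw [Pi.single_eq_of_ne (by simp), mul_zero]
  rw [h]
  rfl

theorem evP_A (a : Fin n → Fin N → R) (x : Fin n → PowerSeries R) (l : Fin n) (j : Fin N)
    (P : Pol n N k) : evP a x (A l j P) =
      (PowerSeries.constantCoeff (x l) - a l j) ^ (k + 1) *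
        evP a x (pderiv (Sum.inl (l, j)) P) := by
  rw [A_apply, map_mul, map_pow, map_sub]
  congr 3
  · show aeval _ (X _) = _
    rw [aeval_X]
    show PowerSeries.coeff (((0 : Fin (k + 1)) : ℕ)) (x l) = _
    simp
  · show aeval _ (X _) = _
    rw [aeval_X]
    rfl

theorem cong_iff {S : Type*} [CommRing S] (f g : PowerSeries S) :
    (∀ s ≤ k, PowerSeries.coeff s f = PowerSeries.coeff s g) ↔
      (PowerSeries.X : PowerSeries S) ^ (k + 1) ∣ f - g := by
  rw [PowerSeries.X_pow_dvd_iff]
  constructor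
  · intro h m hm
    rw [map_sub, h m (by omega), sub_self]
  · intro h s hs
    have := h s (by omega)
    rwa [map_sub, sub_eq_zero] at this

end main

theorem key {n N k : ℕ} {m' : ℕ} {P : Pol n N k} (hP : Nod.{u} m' P) {I : Finset (Fin n)}
    {i₀ : Fin n} {jj : Fin n → Fin N} (h0 : i₀ ∈ I) (h1 : ∀ i ∈ I, i₀ ≤ i) (h2 : 2 ≤ I.card)
    {R : Type u} [CommRing R] (a : Fin n → Fin N → R) (x : Fin n → PowerSeries R) (l : Fin n)
    (j : Fin N) (W : R) (η' : Fin n → PowerSeries (DualNumber R))
    (hrel : ∀ i ∈ I, i ≠ i₀ → (PowerSeries.X : PowerSeries (DualNumber R)) ^ (k + 1) ∣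
      PowerSeries.map (ii R) (x i) - (PowerSeries.C (pa a l j W i (jj i)) +
        η' i * (PowerSeries.map (ii R) (x i₀) - PowerSeries.C (pa a l j W i₀ (jj i₀)))))
    (hdiv : ii R (PowerSeries.constantCoeff (x i₀) - a i₀ (jj i₀)) ∣
      ii R (PowerSeries.constantCoeff (x i₀)) - pa a l j W i₀ (jj i₀)) :
    (PowerSeries.constantCoeff (x i₀) - a i₀ (jj i₀)) ^ (I.card * m') ∣
      W * evP a x (pderiv (Sum.inl (l, j)) P) := by
  have h3 := hP I i₀ jj h0 h1 h2 (DualNumber R) (pa a l j W)
    (fun i => PowerSeries.map (ii R) (x i)) η'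
    (fun i hi hne => (cong_iff _ _).2 (hrel i hi hne))
  rw [evP_pa] at h3
  have h4 : PowerSeries.constantCoeff (PowerSeries.map (ii R) (x i₀)) =
      ii R (PowerSeries.constantCoeff (x i₀)) := by
    rw [← PowerSeries.coeff_zero_eq_constantCoeff_apply, PowerSeries.coeff_map,
      PowerSeries.coeff_zero_eq_constantCoeff_apply]
  simp only [h4] at h3
  exact dvd_snd hdiv h3

theorem map_dvd' {k : ℕ} {R : Type*} [CommRing R] {f : PowerSeries R}
    (h : (PowerSeries.X : PowerSeries R) ^ (k + 1) ∣ f) :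
    (PowerSeries.X : PowerSeries (DualNumber R)) ^ (k + 1) ∣ PowerSeries.map (ii R) f := by
  have h1 := map_dvd (PowerSeries.map (ii R)) h
  rwa [map_pow, PowerSeries.map_X] at h1

theorem C_pa {n N : ℕ} {R : Type*} [CommRing R] (a : Fin n → Fin N → R) (l : Fin n) (j : Fin N)
    (W : R) (p : Fin n) (q : Fin N) : PowerSeries.C (pa a l j W p q) =
      PowerSeries.map (ii R) (PowerSeries.C (a p q)) + PowerSeries.C (ee R) *
        PowerSeries.map (ii R) (PowerSeries.C (if (p, q) = (l, j) then W else 0)) := by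
  rw [pa, dn_eq, map_add, map_mul, PowerSeries.map_C, PowerSeries.map_C]

theorem C_ee {R : Type*} [CommRing R] :
    (PowerSeries.C (ee R) : PowerSeries (DualNumber R)) * PowerSeries.C (ee R) = 0 := by
  rw [← map_mul, ee_mul, map_zero]

theorem clm : ClmStmt.{u} := by
  intro n N k m' P hP l j I i₀ jj h0 h1 h2 R _ a x η hrel
  have hrel' : ∀ i ∈ I, i ≠ i₀ → (PowerSeries.X : PowerSeries R) ^ (k + 1) ∣
      x i - (PowerSeries.C (a i (jj i)) + η i * (x i₀ - PowerSeries.C (a i₀ (jj i₀)))) :=
    fun i hi hne => (cong_iff _ _).1 (hrel i hi hne)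
  rw [evP_A]
  by_cases hl : l ∈ I ∧ jj l = j
  · obtain ⟨hl, rfl⟩ := hl
    have hu : PowerSeries.constantCoeff (x i₀ - PowerSeries.C (a i₀ (jj i₀))) =
        PowerSeries.constantCoeff (x i₀) - a i₀ (jj i₀) := by
      rw [map_sub, PowerSeries.constantCoeff_C]
    obtain ⟨v, hv⟩ := exists_v k (x i₀ - PowerSeries.C (a i₀ (jj i₀)))
    rw [hu] at hv
    by_cases hl0 : l = i₀
    · subst hl0
      refine key hP h0 h1 h2 a x l (jj l) _ (fun i => PowerSeries.map (ii R) (η i) +
        PowerSeries.C (ee R) * PowerSeries.map (ii R) (η i * v)) (fun i hi hne => ?_) ?_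
      · have e1 := map_dvd' (hrel' i hi hne)
        have e2 := map_dvd' (hv.mul_left (η i))
        have e3 := (e1.sub (e2.mul_left (PowerSeries.C (ee R))))
        rw [C_pa, C_pa, if_neg (fun h => hne (Prod.mk.inj h).1), if_pos rfl]
        refine e3.trans (dvd_of_eq ?_)
        simp only [map_sub, map_add, map_mul, map_zero]
        linear_combination (-(PowerSeries.map (ii R) (η i) * PowerSeries.map (ii R) v *
          PowerSeries.map (ii R) (PowerSeries.C
            ((PowerSeries.constantCoeff (x l) - a l (jj l)) ^ (k + 1))))) * C_ee (R := R)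
      · refine ⟨dn 1 (-(PowerSeries.constantCoeff (x l) - a l (jj l)) ^ k), ?_⟩
        rw [pa, if_pos rfl, dn_eq, dn_eq]
        simp only [map_sub, map_pow, map_neg, map_one]
        ring
    · have hx : PowerSeries.constantCoeff (x l) - a l (jj l) =
          PowerSeries.constantCoeff (η l) * (PowerSeries.constantCoeff (x i₀) - a i₀ (jj i₀)) := by
        have := hrel l hl hl0 0 (Nat.zero_le _)
        simp only [PowerSeries.coeff_zero_eq_constantCoeff_apply, map_add, map_mul, map_sub,
          PowerSeries.constantCoeff_C] at this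
        rw [this]
        ring
      refine key hP h0 h1 h2 a x l (jj l) _ (fun i => PowerSeries.map (ii R) (η i) -
        if i = l then PowerSeries.C (ee R) * PowerSeries.map (ii R)
          (PowerSeries.C (PowerSeries.constantCoeff (η l) ^ (k + 1)) * v) else 0)
        (fun i hi hne => ?_) ?_
      · have e1 := map_dvd' (hrel' i hi hne)
        by_cases hil : i = l
        · subst hil
          have e2 := map_dvd' (hv.mul_left
            (PowerSeries.C (PowerSeries.constantCoeff (η i) ^ (k + 1))))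
          have e3 := (e1.add (e2.mul_left (PowerSeries.C (ee R))))
          rw [C_pa, C_pa, if_pos rfl, if_pos rfl, if_neg (fun h => hne (Prod.mk.inj h).1.symm), hx]
          refine e3.trans (dvd_of_eq ?_)
          simp only [map_sub, map_add, map_mul, map_zero, mul_pow]
          ring
        · rw [C_pa, C_pa, if_neg hil, if_neg (fun h => hil (Prod.mk.inj h).1),
            if_neg (fun h => hl0 (Prod.mk.inj h).1.symm)]
          refine e1.trans (dvd_of_eq ?_)
          simp only [map_sub, map_add, map_mul, map_zero]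
          ring
      · rw [pa, if_neg (fun h => hl0 (Prod.mk.inj h).1.symm), ← ii_eq, map_sub]
  · have h3 : ∀ i ∈ I, ¬ ((i, jj i) = (l, j)) := fun i hi h => by
      obtain ⟨e1, e2⟩ := Prod.mk.inj h
      subst e1
      exact hl ⟨hi, e2⟩
    have h4 : (PowerSeries.constantCoeff (x i₀) - a i₀ (jj i₀)) ^ (I.card * m') ∣
        1 * evP a x (pderiv (Sum.inl (l, j)) P) := by
      refine key hP h0 h1 h2 a x l j 1 (fun i => PowerSeries.map (ii R) (η i))
        (fun i hi hne => ?_) ?_
      · rw [C_pa, C_pa, if_neg (h3 i hi), if_neg (h3 i₀ h0)]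
        refine (map_dvd' (hrel' i hi hne)).trans (dvd_of_eq ?_)
        simp only [map_sub, map_add, map_mul, map_zero]
        ring
      · rw [pa, if_neg (h3 i₀ h0), ← ii_eq, map_sub]
    rw [one_mul] at h4
    exact h4.mul_left _

end Pool.Agent.PN.H11
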